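import Mathlib

set_option autoImplicit false
open scoped Pointwise

/-! Statements of the project LR: refutation of Q1 of MP_86f7a7_co (frozen statement S09898). -/

namespace Pool.Agent.N437.LR

abbrev EE (n : ℕ) : Type := EuclideanSpace ℝ (Fin n)

/-- all nonzero vectors of `L` have norm at least `1` -/
def Sep {n : ℕ} (L : AddSubgroup (EE n)) : Prop := ∀ x ∈ L, x ≠ 0 → 1 ≤ ‖x‖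

/-- index property: for `m ≤ n/2` independent vectors of `L` in the ball of radius `R1` at most
`(C3 R1) ^ (3 m)` points of `L` are in their half open parallelepiped -/
def IdxP {n : ℕ} (L : AddSubgroup (EE n)) (C3 R1 : ℝ) : Prop :=
  ∀ (m : ℕ) (x : Fin m → EE n), 2 * m ≤ n → LinearIndependent ℝ x → (∀ i, x i ∈ L) →
    (∀ i, ‖x i‖ ≤ R1) → ∀ S : Finset (Fin m → ℝ),
      (∀ a ∈ S, (∀ i, 0 ≤ a i ∧ a i < 1) ∧ ∑ i, a i • x i ∈ L) →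
        (S.card : ℝ) ≤ (C3 * R1) ^ (3 * m)

def Pts {n : ℕ} (L : AddSubgroup (EE n)) (T : ℝ) : Set (EE n) := {x | x ∈ L ∧ ‖x‖ ≤ T}

/-- good lattices exist -/
def S_RL : Prop :=
  ∃ C3 c : ℝ, 1 ≤ C3 ∧ 0 < c ∧ ∀ Rmax : ℕ, ∃ n0 : ℕ, ∀ n : ℕ, n0 ≤ n →
    ∃ L : AddSubgroup (EE n), Sep L ∧ (∀ T : ℝ, 1 ≤ T → (c * T) ^ n ≤ ((Pts L T).ncard : ℝ)) ∧
      ∀ R1 : ℕ, 1 ≤ R1 → R1 ≤ Rmax → IdxP L C3 R1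

/-- integer points of the ball -/
def zb (n : ℕ) (Y : ℝ) : Set (Fin n → ℤ) := {z | ∑ i, (z i : ℝ) ^ 2 ≤ Y ^ 2}

def S_BALLS : Prop :=
  (∀ (n : ℕ) (Y : ℝ), (zb n Y).Finite) ∧ ∃ C : ℝ, 1 ≤ C ∧ ∀ (n : ℕ) (Y : ℝ), 1 ≤ n →
    Real.sqrt n ≤ Y → ((zb n Y).ncard : ℝ) ≤ (C * Y / Real.sqrt n) ^ n ∧
      (Y / Real.sqrt n) ^ n ≤ ((zb n Y).ncard : ℝ)

def S_SUBG : Prop :=
  ∀ m j : ℕ, 1 ≤ j → {N : AddSubgroup (Fin m → ℤ) | N.index = j}.Finite ∧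
    {N : AddSubgroup (Fin m → ℤ) | N.index = j}.ncard ≤ 2 ^ m * j ^ m

def S_DUAL : Prop :=
  ∀ (m : ℕ) (G : AddSubgroup (Fin m → ℝ)) (S : Finset (Fin m → ℝ)),
    (∀ z : Fin m → ℤ, (fun i => (z i : ℝ)) ∈ G) →
    (∀ a, a ∈ S ↔ a ∈ G ∧ ∀ i, 0 ≤ a i ∧ a i < 1) →
    ∃ N : AddSubgroup (Fin m → ℤ), N.index = S.card ∧
      ∀ ξ : Fin m → ℤ, ξ ∈ N ↔ ∀ a ∈ G, ∃ z : ℤ, ∑ i, (ξ i : ℝ) * a i = z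

def S_ROWS : Prop :=
  ∀ (m n j : ℕ) (N : AddSubgroup (Fin m → ℤ)) (Y : ℝ), 0 ≤ Y → 1 ≤ j → N.index = j →
    ({X : Fin n → Fin m → ℤ | (∀ k, X k ∈ N) ∧
        ∀ i, ∑ k, (X k i : ℝ) ^ 2 ≤ Y ^ 2}.ncard : ℝ) * (j : ℝ) ^ n ≤
      ((zb n (Y + j * Real.sqrt n)).ncard : ℝ) ^ m

def S_PHI : Prop :=
  ∀ (P n m : ℕ) (X : Fin m → Fin n → ℤ) (B : ℝ), P.Prime →
    LinearIndependent ℝ (fun i => fun k => (X i k : ℝ)) → (∀ i k, |(X i k : ℝ)| ≤ B) →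
    (m.factorial : ℝ) * B ^ m < P →
    {φ : Fin n → ZMod P | ∀ i, ∑ k, φ k * (X i k : ZMod P) = 0}.ncard * P ^ m ≤ P ^ n

def inL {n : ℕ} (P : ℕ) (φ : Fin n → ℤ) (z : Fin n → ℤ) : Prop := (P : ℤ) ∣ ∑ k, φ k * z k

/-- good lattices `{z : P ∣ ⟨φ, z⟩}` -/
def S_PGOOD : Prop :=
  ∃ C3 c2 : ℝ, 1 ≤ C3 ∧ 0 < c2 ∧ c2 ≤ 1 ∧ ∀ Rmax : ℕ, ∃ n0 : ℕ, 1 ≤ n0 ∧ ∀ n : ℕ, n0 ≤ n →
    ∀ J : ℕ, ∃ (P : ℕ) (φ : Fin n → ℤ) (ρ : ℝ), 0 < P ∧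
      ρ = (P : ℝ) ^ (1 / (n : ℝ)) * Real.sqrt n ∧ (J : ℝ) * Real.sqrt n ≤ ρ ∧
      (∀ z : Fin n → ℤ, z ≠ 0 → inL P φ z → (c2 * ρ) ^ 2 ≤ ∑ i, (z i : ℝ) ^ 2) ∧
      ∀ R1 : ℕ, 1 ≤ R1 → R1 ≤ Rmax → ∀ m : ℕ, 2 * m ≤ n → ∀ X : Fin m → Fin n → ℤ,
        LinearIndependent ℝ (fun i => fun k => (X i k : ℝ)) → (∀ i, inL P φ (X i)) →
        (∀ i, ∑ k, (X i k : ℝ) ^ 2 ≤ (R1 * ρ) ^ 2) →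
        ∀ N : AddSubgroup (Fin m → ℤ), N.index ≠ 0 → N.index ≤ J →
          (∀ k, (fun i => X i k) ∈ N) → (N.index : ℝ) ≤ (C3 * R1) ^ (3 * m)

/-! the deterministic part -/

/-- a family of balls in a torsion-free group -/
structure Fam {G : Type} [AddCommGroup G] (A : ℝ → Set G) : Prop where
  fin : ∀ R, (A R).Finite
  mono : ∀ a b, a ≤ b → A a ⊆ A b
  zero : ∀ R, 0 ≤ R → (0 : G) ∈ A R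
  neg : ∀ R z, z ∈ A R → -z ∈ A R
  add : ∀ a b x y, x ∈ A a → y ∈ A b → x + y ∈ A (a + b)
  root : ∀ (k : ℕ) (R : ℝ) (z : G), 1 ≤ k → k • z ∈ A (k * R) → z ∈ A R
  tf : ∀ (k : ℕ) (z : G), 1 ≤ k → k • z = 0 → z = 0

def S_CVX : Prop :=
  ∀ (G : Type) [AddCommGroup G] (A : ℝ → Set G), Fam A → ∀ (R k : ℕ) (s a : ℝ), 1 ≤ R →
    0 < s → s ≤ 2 * a →
    ((A a).ncard : ℝ) * ((A (s * R)).ncard : ℝ) ^ k ≤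
      ((A ((4 * (R : ℝ)) ^ k * a)).ncard : ℝ) * ((A s).ncard : ℝ) ^ k

def AR {n r : ℕ} (T0 T : ℝ) (V : (Fin r → ℤ) →+ EE n) (R : ℝ) : Set (Fin r → ℤ) :=
  {z | (∀ j, |(z j : ℝ)| ≤ T0 * R) ∧ ‖V z‖ ≤ 2 * T * R}

def S_FAM : Prop :=
  ∀ (n r : ℕ) (T0 T : ℝ) (V : (Fin r → ℤ) →+ EE n), 0 < T0 → 0 < T → Fam (AR T0 T V)

/-- growth of the image -/
def S_IMG : Prop :=
  ∀ (n r T0 T Q : ℕ) (L : AddSubgroup (EE n)) (V : (Fin r → ℤ) →+ EE n)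
    (E : Finset (Fin r → ℤ)) (W : ℝ), Sep L → (∀ z, V z ∈ L) → 1 ≤ T0 → 1 ≤ T → 2 * T + 2 ≤ Q →
    (∀ z ∈ E, ∀ j, 0 ≤ z j ∧ z j ≤ T0) → Set.InjOn V E →
    (∀ z ∈ E, ∀ z' ∈ E, ‖V z - V z'‖ ≤ 2 * T) → 0 ≤ W → W ≤ (E.card : ℝ) →
    ∀ (k : ℕ) (R : ℝ), (Q : ℝ) ^ k ≤ R → W ^ k ≤ ((V '' AR T0 T V R).ncard : ℝ)

def S_PIG : Prop :=
  ∀ (C1 T0 R0 : ℕ) (ε : ℝ), 1 ≤ T0 → 0 < ε → ∃ Rmax : ℕ, ∀ (n r : ℕ) (N : ℕ → ℝ), 1 ≤ n →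
    r ≤ C1 * n → (∀ R, 1 ≤ N R) → (∀ R : ℕ, 1 ≤ R → N R ≤ ((3 * T0 * R : ℕ) : ℝ) ^ r) →
    ∃ R : ℕ, R0 ≤ R ∧ 1 ≤ R ∧ R ≤ Rmax ∧
      N (2 ^ 47 * R ^ 24) ≤ N R ^ 24 * (R : ℝ) ^ (ε * n)

def red {r : ℕ} (p : ℕ) (z : Fin r → ℤ) : Fin r → ZMod p := fun j => (z j : ZMod p)

def S_UDH : Prop :=
  ∀ (r p : ℕ) [Fact p.Prime] (A : ℝ → Set (Fin r → ℤ)) (K : ℝ), Fam A →
    ((A (2 * (p : ℝ) ^ 2)).ncard : ℝ) * ((A 2).ncard : ℝ) ≤ K * ((A p).ncard : ℝ) ^ 2 →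
    ∃ (H : Submodule (ZMod p) (Fin r → ZMod p)) (F : Finset (Fin r → ZMod p)),
      (Nat.card H : ℝ) ≤ K ^ 5404 * ((A p).ncard : ℝ) ∧ (F.card : ℝ) ≤ K ^ 5406 ∧
      ∀ z ∈ A p, ∃ f ∈ F, red p z - f ∈ H

def S_SLICE : Prop :=
  ∀ (F : Type) [Field F] (r m : ℕ) (H K : Submodule F (Fin r → F)), K ≤ H →
    m + Module.finrank F K ≤ Module.finrank F H →
    ∃ J : Finset (Fin r), J.card + m = Module.finrank F H ∧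
      (∀ h ∈ K, (∀ j ∈ J, h j = 0) → h = 0) ∧
      Module.finrank F ↥(H ⊓ ⨅ j ∈ J,
        LinearMap.ker (LinearMap.proj j : (Fin r → F) →ₗ[F] F)) = m

/-- the part of the ball of radius `2 R` above `H` -/
def MH {n r : ℕ} (p T0 T R : ℕ) (V : (Fin r → ℤ) →+ EE n)
    (H : Submodule (ZMod p) (Fin r → ZMod p)) : Set (Fin r → ℤ) :=
  {z | z ∈ AR T0 T V (2 * R) ∧ red p z ∈ H}

def S_ST3 : Prop :=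
  ∀ (n r p T T0 R : ℕ) (C3 : ℝ) [Fact p.Prime] (L : AddSubgroup (EE n))
    (V : (Fin r → ℤ) →+ EE n) (H : Submodule (ZMod p) (Fin r → ZMod p)),
    1 ≤ T → 1 ≤ T0 → 1 ≤ R → 1 ≤ C3 → Sep L → (∀ z, V z ∈ L) →
    IdxP L C3 ((8 * T * R : ℕ) : ℝ) → 8 * T0 * R < p → 8 * T * R < p →
    (C3 * ((8 * T * R : ℕ) : ℝ)) ^ 6 < p →
    ∃ m : ℕ, m ≤ Module.finrank (ZMod p) H ∧ 4 * m ≤ n ∧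
      (n < 4 * (m + 1) ∨ (V '' MH p T0 T R V H).ncard ≤ p ^ m) ∧
      ∃ B : Finset (EE n), (∀ x ∈ B, x ∈ L ∧ ‖x‖ ≤ ((8 * T * R : ℕ) : ℝ)) ∧
        2 * Module.finrank ℝ (Submodule.span ℝ (B : Set (EE n))) ≤ n ∧
        (MH p T0 T R V H).ncard ≤ B.card * (4 * T0 * R + 1) ^ (Module.finrank (ZMod p) H - m)

/-! frames -/

def S_FR1 : Prop :=
  ∀ (n : ℕ) (B : Finset (EE n)), ∃ (m : ℕ) (b : Fin m → EE n) (c : EE n → Fin m → ℝ),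
    m = Module.finrank ℝ (Submodule.span ℝ (B : Set (EE n))) ∧ LinearIndependent ℝ b ∧
    (∀ i, b i ∈ B) ∧ (∀ x ∈ B, x = ∑ i, c x i • b i) ∧ (∀ i, c (b i) = Pi.single i 1) ∧
    ∀ f : Fin m → EE n, (∀ i, f i ∈ B) → |(Matrix.of fun i j => c (f i) j).det| ≤ 1

def S_FR2 : Prop :=
  ∀ (m : ℕ) (D : Finset (Fin m → ℝ)), (∀ i, Pi.single i (1 : ℝ) ∈ D) →
    (∀ f : Fin m → (Fin m → ℝ), (∀ i, f i ∈ D) → |(Matrix.of f).det| ≤ 1) →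
    ∃ (t : ℕ) (M : Matrix (Fin m) (Fin t) ℝ), t ≤ m ∧ (∀ j, (fun i => M i j) ∈ D) ∧
      (1 + M * M.transpose).det ≤ 4 ^ m ∧
      ∀ x ∈ D, ∃ (u : Fin m → ℝ) (w : Fin t → ℝ), (∀ i, x i = u i + ∑ j, M i j * w j) ∧
        ∑ i, u i ^ 2 + ∑ j, w j ^ 2 ≤ 4

/-- packing in ellipsoids -/
def S_EP : Prop :=
  ∀ (n s : ℕ) (y : Fin s → EE n) (X : Finset (EE n)),
    (∀ x ∈ X, ∃ a : Fin s → ℝ, x = ∑ i, a i • y i ∧ ∑ i, a i ^ 2 ≤ 1) →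
    (∀ x ∈ X, ∀ x' ∈ X, x ≠ x' → 1 ≤ ‖x - x'‖) →
    (X.card : ℝ) ≤ 2 ^ n * Real.exp (2 * ∑ i, ‖y i‖ ^ 2)

/-- integer points in ellipsoids -/
def S_IE : Prop :=
  ∃ C : ℝ, 1 ≤ C ∧ ∀ (m t n : ℕ) (M : Matrix (Fin m) (Fin t) ℝ), m ≤ n →
    (1 + M * M.transpose).det ≤ 4 ^ m →
    {b : Fin m → ℤ | ∃ (u : Fin m → ℝ) (w : Fin t → ℝ),
        (∀ i, (b i : ℝ) = u i + ∑ j, M i j * w j) ∧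
          ∑ i, u i ^ 2 + ∑ j, w j ^ 2 ≤ (n : ℝ)}.Finite ∧
    ({b : Fin m → ℤ | ∃ (u : Fin m → ℝ) (w : Fin t → ℝ),
        (∀ i, (b i : ℝ) = u i + ∑ j, M i j * w j) ∧
          ∑ i, u i ^ 2 + ∑ j, w j ^ 2 ≤ (n : ℝ)}.ncard : ℝ) ≤ C ^ n

def S_FIN4 : Prop :=
  ∀ (T R : ℕ) (C3 : ℝ), 1 ≤ T → 1 ≤ R → 1 ≤ C3 → ∃ n0 : ℕ, ∀ n : ℕ, n0 ≤ n →
    ∀ L : AddSubgroup (EE n), Sep L → IdxP L C3 ((8 * T * R : ℕ) : ℝ) →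
    ∀ B : Finset (EE n), (∀ x ∈ B, x ∈ L ∧ ‖x‖ ≤ ((8 * T * R : ℕ) : ℝ)) →
      2 * Module.finrank ℝ (Submodule.span ℝ (B : Set (EE n))) ≤ n →
      (B.card : ℝ) < (4 * Real.exp (512 * (T : ℝ) ^ 2)) ^ n

def S_MAIN : Prop :=
  ∀ (C1 T0 T : ℕ) (C3 W : ℝ), 1 ≤ C1 → 1 ≤ T0 → 1 ≤ T → 1 ≤ C3 → 1 < W →
    ∃ Rmax n0 : ℕ, ∀ n : ℕ, n0 ≤ n → ∀ L : AddSubgroup (EE n), Sep L →
      (∀ R1 : ℕ, 1 ≤ R1 → R1 ≤ Rmax → IdxP L C3 R1) →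
      ∀ (r : ℕ) (V : (Fin r → ℤ) →+ EE n) (E : Finset (Fin r → ℤ)), r ≤ C1 * n →
        (∀ z, V z ∈ L) → (∀ z ∈ E, ∀ j, 0 ≤ z j ∧ z j ≤ T0) → Set.InjOn V E →
        (∀ z ∈ E, ∀ z' ∈ E, ‖V z - V z'‖ ≤ 2 * T) → W ^ n ≤ (E.card : ℝ) → False

end Pool.Agent.N437.LR
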